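import Pool.Agent.Run7.h896.RD.CONE

/-!
Project RD (helper500), piece SLICE.
-/

set_option autoImplicit false

open MeasureTheory Filter Topology Set

namespace Pool.Agent.Run7.h896.RD

open Pool.Agent.Run7.h500.RD

/-- The point `i t - x + c`. -/
noncomputable def pt (c : ℂ) (z : ℝ × ℝ) : ℂ := Complex.I * (z.2 : ℂ) - (z.1 : ℂ) + c

lemma pt_re (c : ℂ) (z : ℝ × ℝ) : (pt c z).re = c.re - z.1 := by
  simp [pt]
  ring

lemma pt_im (c : ℂ) (z : ℝ × ℝ) : (pt c z).im = z.2 + c.im := by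
  simp [pt]

lemma pt_ne (c : ℂ) (hc : 0 < c.im) (z : ℝ × ℝ) (hz : 0 < z.2) : pt c z ≠ 0 := by
  intro h
  have h1 := pt_im c z
  rw [h, Complex.zero_im] at h1
  linarith

/-- `1 + |x| + t ≤ K |i t - x + c|`. -/
lemma pt_bound (c : ℂ) (hc : 0 < c.im) : ∃ K : ℝ, 0 < K ∧ ∀ z : ℝ × ℝ, 0 < z.2 →
    sz z ≤ K * ‖pt c z‖ := by
  refine ⟨(1 + |c.re|) / c.im + 2, by positivity, fun z hz => ?_⟩
  have h1 : |c.re - z.1| ≤ ‖pt c z‖ := by
    rw [← pt_re c z]
    exact Complex.abs_re_le_norm _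
  have h2 : z.2 + c.im ≤ ‖pt c z‖ := by
    rw [← pt_im c z]
    exact (le_abs_self _).trans (Complex.abs_im_le_norm _)
  have h3 : |z.1| ≤ |c.re| + |c.re - z.1| := by
    have := abs_sub_abs_le_abs_sub z.1 c.re
    rw [abs_sub_comm z.1 c.re] at this
    linarith
  have h4 : (1 + |c.re|) ≤ (1 + |c.re|) / c.im * ‖pt c z‖ := by
    rw [div_mul_eq_mul_div, le_div_iff₀ hc]
    refine mul_le_mul_of_nonneg_left ?_ (by positivity)
    linarith
  unfold sz
  rw [abs_of_pos hz]
  linarith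

/-- `∫_0^∞ (i t + w)^(-k) dt`. -/
lemma int_ray (k : ℕ) (hk : 3 ≤ k) (w : ℂ) (hw : 0 < w.im) :
    ∫ t in Ioi (0 : ℝ), ((Complex.I * (t : ℂ) + w) ^ k)⁻¹ =
      (w ^ (k - 1))⁻¹ / (Complex.I * ((k : ℂ) - 1)) := by
  obtain ⟨j, rfl⟩ : ∃ j : ℕ, k = j + 3 := ⟨k - 3, by omega⟩
  have hne : ∀ t : ℝ, 0 ≤ t → Complex.I * (t : ℂ) + w ≠ 0 := by
    intro t ht h
    have := congrArg Complex.im h
    simp at this
    linarith
  have hJ : (Complex.I * (((j + 3 : ℕ) : ℂ) - 1)) ≠ 0 := by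
    refine mul_ne_zero Complex.I_ne_zero ?_
    push_cast
    intro h
    have := congrArg Complex.re h
    simp at this
    have hj : (0 : ℝ) ≤ j := Nat.cast_nonneg j
    linarith
  have hder : ∀ t ∈ Ici (0 : ℝ), HasDerivAt
      (fun t : ℝ => -(((Complex.I * (t : ℂ) + w) ^ (j + 2))⁻¹ /
        (Complex.I * (((j + 3 : ℕ) : ℂ) - 1))))
      (((Complex.I * (t : ℂ) + w) ^ (j + 3))⁻¹) t := by
    intro t ht
    have h0 := hne t ht
    have h1 : HasDerivAt (fun t : ℝ => Complex.I * (t : ℂ) + w) Complex.I t := by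
      have := ((Complex.ofRealCLM.hasDerivAt (x := t)).const_mul Complex.I).add_const w
      simpa using this
    have h2 := ((h1.pow (j + 2)).inv (pow_ne_zero _ h0)).div_const
      (Complex.I * (((j + 3 : ℕ) : ℂ) - 1))
    have h3 := h2.neg
    refine h3.congr_deriv ?_
    have hj2 : (((j + 3 : ℕ) : ℂ) - 1) = ((j + 2 : ℕ) : ℂ) := by
      push_cast
      ring
    have hj3 : ((j + 2 : ℕ) : ℂ) ≠ 0 := Nat.cast_ne_zero.2 (by omega)
    rw [hj2]
    have hp : (j + 2 - 1) = j + 1 := rfl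
    rw [hp, Pi.pow_apply]
    field_simp
    ring
  have hlim : Tendsto (fun t : ℝ => -(((Complex.I * (t : ℂ) + w) ^ (j + 2))⁻¹ /
      (Complex.I * (((j + 3 : ℕ) : ℂ) - 1)))) atTop (𝓝 0) := by
    have h1 : Tendsto (fun t : ℝ => ‖Complex.I * (t : ℂ) + w‖) atTop atTop := by
      refine tendsto_atTop_mono' atTop ?_ (tendsto_atTop_add_const_right atTop w.im tendsto_id)
      filter_upwards with t
      have h2 : (Complex.I * (t : ℂ) + w).im = t + w.im := by simp
      have h3 := Complex.abs_im_le_norm (Complex.I * (t : ℂ) + w)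
      rw [h2] at h3
      exact (le_abs_self _).trans h3
    have h2 : Tendsto (fun t : ℝ => (((Complex.I * (t : ℂ) + w) ^ (j + 2))⁻¹ : ℂ)) atTop (𝓝 0) := by
      rw [tendsto_zero_iff_norm_tendsto_zero]
      have h3 := (tendsto_pow_atTop (by omega : j + 2 ≠ 0)).comp h1
      have h4 := h3.inv_tendsto_atTop
      refine h4.congr fun t => ?_
      simp [norm_pow]
    have h3 := (h2.div_const (Complex.I * (((j + 3 : ℕ) : ℂ) - 1))).neg
    simpa using h3
  have hint : IntegrableOn (fun t : ℝ => (((Complex.I * (t : ℂ) + w) ^ (j + 3))⁻¹ : ℂ))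
      (Ioi (0 : ℝ)) := by
    have hg := (g_int (j + 3) (by omega)).const_mul (((1 / w.im) + 1) ^ (j + 3))
    refine Integrable.mono' hg.integrableOn ?_ ?_
    · refine ContinuousOn.aestronglyMeasurable ?_ measurableSet_Ioi
      refine ContinuousOn.inv₀ (by fun_prop) fun t ht => pow_ne_zero _ (hne t (le_of_lt ht))
    · rw [ae_restrict_iff' measurableSet_Ioi]
      refine Eventually.of_forall fun t ht => ?_
      have ht0 : (0 : ℝ) < t := ht
      have h2 : (Complex.I * (t : ℂ) + w).im = t + w.im := by simp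
      have h3 := Complex.abs_im_le_norm (Complex.I * (t : ℂ) + w)
      rw [h2, abs_of_pos (by linarith)] at h3
      have h4 : 1 + |t| ≤ (1 / w.im + 1) * ‖Complex.I * (t : ℂ) + w‖ := by
        rw [abs_of_pos ht0]
        have h5 : 1 ≤ 1 / w.im * ‖Complex.I * (t : ℂ) + w‖ := by
          rw [div_mul_eq_mul_div, one_mul, le_div_iff₀ hw]
          linarith
        linarith
      rw [norm_inv, norm_pow]
      have h6 : 0 < ‖Complex.I * (t : ℂ) + w‖ := norm_pos_iff.2 (hne t ht0.le)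
      have h7 := pow_le_pow_left₀ (by positivity) h4 (j + 3)
      rw [mul_pow] at h7
      rw [← div_eq_mul_inv, inv_eq_one_div, div_le_div_iff₀ (by positivity) (by positivity), one_mul]
      exact h7
  have hfin := integral_Ioi_of_hasDerivAt_of_tendsto' hder hint hlim
  rw [hfin]
  have : j + 3 - 1 = j + 2 := rfl
  rw [this]
  simp

theorem t_SLICE : S_SLICE := by
  intro hBND f m k C hf hV c hc
  have hk := hf.hk
  have hk3 : 3 ≤ k := by omega
  obtain ⟨K, hK, hKb⟩ := pt_bound c hc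
  have hC : 0 ≤ C := by
    have h := hf.growth 0 0
    have h1 := abs_nonneg (f (0, 0))
    simp only [abs_zero, add_zero, one_pow, mul_one] at h
    linarith
  have hup : up = (univ : Set ℝ) ×ˢ Ioi (0 : ℝ) := by
    ext z
    simp [up]
  have hupm : MeasurableSet up := by
    rw [hup]
    exact MeasurableSet.univ.prod measurableSet_Ioi
  -- the general bound
  have hbd : ∀ b : ℝ, 0 ≤ b → b ≤ 1 → ∀ z ∈ up,
      ‖(f (z.1, b * z.2) : ℂ) * ((pt c z) ^ k)⁻¹‖ ≤ (C * K ^ k) * ((1 + ‖z‖) ^ 3)⁻¹ := by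
    intro b hb0 hb1 z hz
    have hz2 : 0 < z.2 := hz
    have hs1 := sz_one z
    have hspos : 0 < sz z := by linarith
    have hp : 0 < ‖pt c z‖ := norm_pos_iff.2 (pt_ne c hc z hz2)
    have h1 : |f (z.1, b * z.2)| ≤ C * sz z ^ m := by
      refine (hf.growth _ _).trans (mul_le_mul_of_nonneg_left ?_ hC)
      refine pow_le_pow_left₀ (by positivity) ?_ m
      unfold sz
      rw [abs_mul, abs_of_nonneg hb0]
      have := mul_le_of_le_one_left (abs_nonneg z.2) hb1
      linarith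
    have h2 : sz z ^ k ≤ K ^ k * ‖pt c z‖ ^ k := by
      rw [← mul_pow]
      exact pow_le_pow_left₀ hspos.le (hKb z hz2) k
    have h6 : sz z ^ m * sz z ^ 3 ≤ sz z ^ k := by
      rw [← pow_add]
      exact pow_le_pow_right₀ hs1 hk
    have h7 : (1 + ‖z‖) ^ 3 ≤ sz z ^ 3 := pow_le_pow_left₀ (by positivity) (sz_norm z) 3
    rw [norm_mul, norm_inv, norm_pow, Complex.norm_real, Real.norm_eq_abs]
    calc |f (z.1, b * z.2)| * (‖pt c z‖ ^ k)⁻¹ ≤ (C * sz z ^ m) * (‖pt c z‖ ^ k)⁻¹ :=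
          mul_le_mul_of_nonneg_right h1 (by positivity)
      _ ≤ (C * sz z ^ m) * (K ^ k * (sz z ^ k)⁻¹) := by
          refine mul_le_mul_of_nonneg_left ?_ (by positivity)
          rw [← div_eq_mul_inv, inv_eq_one_div, div_le_div_iff₀ (by positivity) (by positivity),
            one_mul]
          exact h2
      _ = (C * K ^ k) * (sz z ^ m * (sz z ^ k)⁻¹) := by ring
      _ ≤ (C * K ^ k) * (sz z ^ 3)⁻¹ := by
          refine mul_le_mul_of_nonneg_left ?_ (by positivity)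
          rw [← div_eq_mul_inv, div_le_iff₀ (by positivity), ← div_eq_inv_mul,
            le_div_iff₀ (by positivity)]
          exact h6
      _ ≤ (C * K ^ k) * ((1 + ‖z‖) ^ 3)⁻¹ := by
          refine mul_le_mul_of_nonneg_left ?_ (by positivity)
          exact inv_anti₀ (by positivity) h7
  have hbi : IntegrableOn (fun z : ℝ × ℝ => (C * K ^ k) * ((1 + ‖z‖) ^ 3)⁻¹) up :=
    (one_add_norm_int.const_mul _).integrableOn
  have hcontpt : Continuous (pt c) := by
    unfold pt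
    fun_prop
  have hmeas : ∀ b : ℝ, AEStronglyMeasurable
      (fun z : ℝ × ℝ => (f (z.1, b * z.2) : ℂ) * ((pt c z) ^ k)⁻¹) (volume.restrict up) := by
    intro b
    refine ContinuousOn.aestronglyMeasurable ?_ hupm
    refine ContinuousOn.mul ?_ ?_
    · have h1 : Continuous fun z : ℝ × ℝ => f (z.1, b * z.2) := hf.cont.comp (by fun_prop)
      exact (Complex.continuous_ofReal.comp h1).continuousOn
    · exact ContinuousOn.inv₀ (hcontpt.pow k).continuousOn fun z hz => pow_ne_zero _ (pt_ne c hc z hz)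
  have hint : ∀ b : ℝ, 0 ≤ b → b ≤ 1 → IntegrableOn
      (fun z : ℝ × ℝ => (f (z.1, b * z.2) : ℂ) * ((pt c z) ^ k)⁻¹) up := by
    intro b hb0 hb1
    refine Integrable.mono' hbi (hmeas b) ?_
    rw [ae_restrict_iff' hupm]
    exact Eventually.of_forall fun z hz => hbd b hb0 hb1 z hz
  -- the integral vanishes for `0 < b ≤ 1`
  have hzero : ∀ b : ℝ, 0 < b → b ≤ 1 →
      ∫ z in up, (f (z.1, b * z.2) : ℂ) * ((pt c z) ^ k)⁻¹ = 0 := by
    intro b hb0 hb1
    have hw : 0 < (Complex.I * ((b⁻¹ : ℝ) : ℂ)).im := by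
      simp
      exact hb0
    have h1 := hV c (Complex.I * ((b⁻¹ : ℝ) : ℂ)) hc hw
    obtain ⟨_, _, hB⟩ := hBND f m k C hf c hc
    have hi := (hB _ hw).1
    unfold Vp at h1
    rw [hup] at h1 hi ⊢
    have h2 := setIntegral_prod _ hi
    have hi' := hint b hb0.le hb1
    rw [hup] at hi'
    have h3 := setIntegral_prod _ hi'
    change ∫ z in univ ×ˢ Ioi (0 : ℝ), _ ∂(volume.prod volume) = 0 at h1
    rw [h2] at h1
    change ∫ z in univ ×ˢ Ioi (0 : ℝ), _ ∂(volume.prod volume) = 0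
    rw [h3]
    have h4 : ∀ x : ℝ, ∫ y in Ioi (0 : ℝ), (f (x, b * y) : ℂ) * ((pt c (x, y)) ^ k)⁻¹ =
        b⁻¹ • ∫ y in Ioi (0 : ℝ), (f (x, y) : ℂ) * Pool.Agent.Run7.h500.RD.ker k c (Complex.I * ((b⁻¹ : ℝ) : ℂ)) (x, y) := by
      intro x
      have h5 := integral_comp_mul_left_Ioi
        (fun y : ℝ => (f (x, y) : ℂ) * Pool.Agent.Run7.h500.RD.ker k c (Complex.I * ((b⁻¹ : ℝ) : ℂ)) (x, y)) 0 hb0
      rw [mul_zero] at h5
      rw [← h5]
      refine setIntegral_congr_fun measurableSet_Ioi fun y _ => ?_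
      simp only [Pool.Agent.Run7.h500.RD.ker, pt]
      congr 4
      have hb' : (b : ℂ) ≠ 0 := by exact_mod_cast hb0.ne'
      push_cast
      field_simp
    simp only [h4]
    rw [integral_smul]
    rw [h1, smul_zero]
  -- the limit
  have hlim : Tendsto (fun n : ℕ => ∫ z in up,
      (f (z.1, (1 / ((n : ℝ) + 1)) * z.2) : ℂ) * ((pt c z) ^ k)⁻¹) atTop
      (𝓝 (∫ z in up, (f (z.1, 0) : ℂ) * ((pt c z) ^ k)⁻¹)) := by
    refine tendsto_integral_of_dominated_convergence
      (fun z : ℝ × ℝ => (C * K ^ k) * ((1 + ‖z‖) ^ 3)⁻¹) (fun n => hmeas _) hbi (fun n => ?_) ?_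
    · rw [ae_restrict_iff' hupm]
      refine Eventually.of_forall fun z hz => hbd _ (by positivity) ?_ z hz
      rw [div_le_one (by positivity)]
      have : (0 : ℝ) ≤ n := Nat.cast_nonneg n
      linarith
    · refine Eventually.of_forall fun z => ?_
      refine Tendsto.mul_const _ ?_
      have h1 : Tendsto (fun n : ℕ => (1 / ((n : ℝ) + 1)) * z.2) atTop (𝓝 0) := by
        have := (tendsto_one_div_add_atTop_nhds_zero_nat (𝕜 := ℝ)).mul_const z.2
        rwa [zero_mul] at this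
      have h2 : Tendsto (fun n : ℕ => (z.1, (1 / ((n : ℝ) + 1)) * z.2)) atTop (𝓝 (z.1, (0 : ℝ))) :=
        tendsto_const_nhds.prodMk_nhds h1
      have h3 := (hf.cont.tendsto (z.1, (0 : ℝ))).comp h2
      exact (Complex.continuous_ofReal.tendsto _).comp h3
  have hlim0 : ∫ z in up, (f (z.1, 0) : ℂ) * ((pt c z) ^ k)⁻¹ = 0 := by
    refine tendsto_nhds_unique hlim ?_
    have h1 : (fun n : ℕ => ∫ z in up,
        (f (z.1, (1 / ((n : ℝ) + 1)) * z.2) : ℂ) * ((pt c z) ^ k)⁻¹) = fun _ => 0 := by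
      funext n
      refine hzero _ (by positivity) ?_
      rw [div_le_one (by positivity)]
      have : (0 : ℝ) ≤ n := Nat.cast_nonneg n
      linarith
    rw [h1]
    exact tendsto_const_nhds
  have hi0 := hint 0 le_rfl zero_le_one
  simp only [zero_mul] at hi0
  rw [hup] at hi0 hlim0
  have h2 := setIntegral_prod _ hi0
  change ∫ z in univ ×ˢ Ioi (0 : ℝ), _ ∂(volume.prod volume) = 0 at hlim0
  rw [h2, Measure.restrict_univ] at hlim0
  have h3 : ∀ x : ℝ, ∫ y in Ioi (0 : ℝ), (f (x, 0) : ℂ) * ((pt c (x, y)) ^ k)⁻¹ =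
      ((f (x, 0) : ℂ) * ((c - (x : ℂ)) ^ (k - 1))⁻¹) * (Complex.I * ((k : ℂ) - 1))⁻¹ := by
    intro x
    rw [integral_const_mul]
    have h4 := int_ray k hk3 (c - (x : ℂ)) (by simpa using hc)
    have h5 : ∀ y : ℝ, pt c (x, y) = Complex.I * (y : ℂ) + (c - (x : ℂ)) := by
      intro y
      simp only [pt]
      ring
    simp only [h5]
    rw [h4, div_eq_mul_inv]
    ring
  simp only [h3] at hlim0
  rw [integral_mul_const] at hlim0
  refine (mul_eq_zero.1 hlim0).resolve_right ?_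
  refine inv_ne_zero (mul_ne_zero Complex.I_ne_zero ?_)
  intro h
  have := congrArg Complex.re h
  simp at this
  have hk' : (3 : ℝ) ≤ k := by exact_mod_cast hk3
  linarith

end Pool.Agent.Run7.h896.RD
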