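import Pool.Agent.Run7.h500.RD.Stm

/-!
Project RD (helper500), piece CONE.
-/

set_option autoImplicit false

open MeasureTheory Filter Topology Set

namespace Pool.Agent.Run7.h896.RD

open Pool.Agent.Run7.h500.RD

/-- The size `1 + |x| + |y|`. -/
def sz (z : ℝ × ℝ) : ℝ := 1 + |z.1| + |z.2|

lemma sz_one (z : ℝ × ℝ) : 1 ≤ sz z := by
  unfold sz
  have h1 := abs_nonneg z.1
  have h2 := abs_nonneg z.2
  linarith

lemma sz_norm (z : ℝ × ℝ) : 1 + ‖z‖ ≤ sz z := by
  unfold sz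
  have h1 := abs_nonneg z.1
  have h2 := abs_nonneg z.2
  rw [Prod.norm_def, Real.norm_eq_abs, Real.norm_eq_abs]
  have h3 : max |z.1| |z.2| ≤ |z.1| + |z.2| := max_le (by linarith) (by linarith)
  linarith

lemma one_add_norm_int : Integrable (fun z : ℝ × ℝ => ((1 + ‖z‖) ^ 3)⁻¹) := by
  have h : Integrable (fun z : ℝ × ℝ => (1 + ‖z‖) ^ (-(3 : ℝ))) := by
    apply integrable_one_add_norm
    rw [Module.finrank_prod, Module.finrank_self]
    norm_num
  refine h.congr (Eventually.of_forall fun z => ?_)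
  have h0 : 0 ≤ 1 + ‖z‖ := by positivity
  show (1 + ‖z‖) ^ (-(3 : ℝ)) = ((1 + ‖z‖) ^ 3)⁻¹
  rw [Real.rpow_neg h0]
  congr 1
  exact_mod_cast Real.rpow_natCast (1 + ‖z‖) 3

lemma g_int (k : ℕ) (hk : 3 ≤ k) : Integrable (fun s : ℝ => ((1 + |s|) ^ k)⁻¹) := by
  have h : Integrable (fun s : ℝ => (1 + ‖s‖) ^ (-(k : ℝ))) := by
    apply integrable_one_add_norm
    rw [Module.finrank_self]
    have : (3 : ℝ) ≤ k := by exact_mod_cast hk
    push_cast
    linarith
  refine h.congr (Eventually.of_forall fun s => ?_)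
  have h0 : 0 ≤ 1 + ‖s‖ := by positivity
  show (1 + ‖s‖) ^ (-(k : ℝ)) = ((1 + |s|) ^ k)⁻¹
  rw [Real.rpow_neg h0, Real.rpow_natCast, Real.norm_eq_abs]

lemma g_sub (k : ℕ) (x y : ℝ) :
    ∫ t : ℝ, ((1 + |x - t * y|) ^ k)⁻¹ = |y⁻¹| * ∫ s : ℝ, ((1 + |s|) ^ k)⁻¹ := by
  have h1 := Measure.integral_comp_mul_left (fun u : ℝ => ((1 + |x - u|) ^ k)⁻¹) y
  have h2 := integral_sub_left_eq_self (fun s : ℝ => ((1 + |s|) ^ k)⁻¹) volume x
  rw [h2, smul_eq_mul] at h1
  rw [← h1]
  refine integral_congr_ae (Eventually.of_forall fun t => ?_)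
  show ((1 + |x - t * y|) ^ k)⁻¹ = ((1 + |x - y * t|) ^ k)⁻¹
  rw [mul_comm]

lemma g_sub_int (k : ℕ) (hk : 3 ≤ k) (x y : ℝ) (hy : y ≠ 0) :
    Integrable (fun t : ℝ => ((1 + |x - t * y|) ^ k)⁻¹) := by
  have h1 : Integrable (fun u : ℝ => ((1 + |x - u|) ^ k)⁻¹) := (g_int k hk).comp_sub_left x
  have h2 := h1.comp_mul_left' hy
  refine h2.congr (Eventually.of_forall fun t => ?_)
  show ((1 + |x - y * t|) ^ k)⁻¹ = ((1 + |x - t * y|) ^ k)⁻¹
  rw [mul_comm]

theorem t_CONE : S_CONE := by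
  intro f m k C hf hk hgr a δ hδ hint
  have hk3 : 3 ≤ k := by omega
  have hC : 0 ≤ C := by
    have h := hgr 0 0
    have h1 := abs_nonneg (f (0, 0))
    simp only [abs_zero, add_zero, one_pow, mul_one] at h
    linarith
  -- smaller cone
  obtain ⟨δ₀, hδ₀, hδ₀1, hδ₀2⟩ : ∃ δ₀ : ℝ, 0 < δ₀ ∧ δ₀ ≤ δ ∧ δ₀ ≤ 1 / 4 :=
    ⟨min δ (1 / 4), lt_min hδ (by norm_num), min_le_left _ _, min_le_right _ _⟩
  obtain ⟨A, hA⟩ : ∃ A : Set (ℝ × ℝ), A = {z | |z.1 - a * z.2| ≤ δ₀ * sz z} := ⟨_, rfl⟩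
  have hszc : Continuous sz := by
    unfold sz
    fun_prop
  have hAc : IsClosed A := by
    rw [hA]
    exact isClosed_le (by fun_prop) (by fun_prop)
  have hAm : MeasurableSet A := hAc.measurableSet
  have hintA : IntegrableOn (fun z : ℝ × ℝ => f z / sz z) A := by
    refine hint.mono_set ?_
    intro z hz
    rw [hA] at hz
    have h1 : |z.1 - a * z.2| ≤ δ₀ * sz z := hz
    show |z.1 - a * z.2| ≤ δ * (1 + |z.1| + |z.2|)
    have h2 : δ₀ * sz z ≤ δ * sz z := mul_le_mul_of_nonneg_right hδ₀1 (by linarith [sz_one z])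
    exact h1.trans h2
  obtain ⟨δ', hδ', hδ'pos⟩ : ∃ δ' : ℝ, δ' = δ₀ / 2 ∧ 0 < δ' := ⟨δ₀ / 2, rfl, by positivity⟩
  refine ⟨δ', hδ'pos, ?_⟩
  obtain ⟨I, hI⟩ : ∃ I : Set ℝ, I = Ioo (a - δ') (a + δ') := ⟨_, rfl⟩
  rw [← hI]
  have hIm : MeasurableSet I := by rw [hI]; exact measurableSet_Ioo
  have hIv : volume I = ENNReal.ofReal (2 * δ') := by
    rw [hI, Real.volume_Ioo]
    congr 1
    ring
  have hfin : IsFiniteMeasure (volume.restrict I) := by
    refine ⟨?_⟩
    rw [Measure.restrict_apply_univ, hIv]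
    exact ENNReal.ofReal_lt_top
  obtain ⟨Φ, hΦ⟩ : ∃ Φ : ℝ × (ℝ × ℝ) → ℝ,
      Φ = fun t => f t.2 / (1 + |t.2.1 - t.1 * t.2.2|) ^ k := ⟨_, rfl⟩
  have hden : ∀ (t x y : ℝ), 0 < (1 + |x - t * y|) ^ k := fun t x y => by positivity
  have hΦc : Continuous Φ := by
    rw [hΦ]
    refine Continuous.div (by fun_prop) (by fun_prop) fun t => ?_
    exact (hden _ _ _).ne'
  have hdist : ∀ t ∈ I, |t - a| ≤ δ' := by
    intro t ht
    rw [hI] at ht
    rw [abs_le]
    exact ⟨by linarith [ht.1], by linarith [ht.2]⟩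
  show IntegrableOn (fun t : ℝ × (ℝ × ℝ) => f t.2 / (1 + |t.2.1 - t.1 * t.2.2|) ^ k)
    (I ×ˢ (univ : Set (ℝ × ℝ)))
  rw [← hΦ]
  have huniv : I ×ˢ (univ : Set (ℝ × ℝ)) = I ×ˢ A ∪ I ×ˢ Aᶜ := by
    rw [← Set.prod_union, Set.union_compl_self]
  rw [huniv]
  refine IntegrableOn.union ?_ ?_
  · -- inside the cone
    obtain ⟨κ, hκ, hκpos⟩ : ∃ κ : ℝ, κ = 1 / (4 * (|a| + 1)) ∧ 0 < κ :=
      ⟨_, rfl, by positivity⟩
    obtain ⟨J, hJ, hJ0⟩ : ∃ J : ℝ, J = ∫ s : ℝ, ((1 + |s|) ^ k)⁻¹ ∧ 0 ≤ J :=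
      ⟨_, rfl, integral_nonneg fun s => by positivity⟩
    have hkey : ∀ z ∈ A, ∫ t in I, ((1 + |z.1 - t * z.2|) ^ k)⁻¹ ≤ (J / κ + 4 * δ') / sz z := by
      intro z hz
      have hs1 := sz_one z
      have hspos : 0 < sz z := by linarith
      rw [hA] at hz
      have hz' : |z.1 - a * z.2| ≤ δ₀ * sz z := hz
      rcases le_or_gt (κ * sz z) |z.2| with hy | hy
      · have hypos : 0 < |z.2| := lt_of_lt_of_le (by positivity) hy
        have hy0 : z.2 ≠ 0 := abs_pos.1 hypos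
        have h1 : ∫ t in I, ((1 + |z.1 - t * z.2|) ^ k)⁻¹ ≤
            ∫ t : ℝ, ((1 + |z.1 - t * z.2|) ^ k)⁻¹ :=
          setIntegral_le_integral (g_sub_int k hk3 z.1 z.2 hy0)
            (Eventually.of_forall fun t => by positivity)
        rw [g_sub, ← hJ, abs_inv] at h1
        have h2 : |z.2|⁻¹ * J ≤ J / κ / sz z := by
          rw [div_div, inv_mul_eq_div]
          exact div_le_div_of_nonneg_left hJ0 (by positivity) hy
        have h3 : J / κ / sz z ≤ (J / κ + 4 * δ') / sz z := by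
          apply div_le_div_of_nonneg_right _ hspos.le
          linarith
        linarith
      · have h4 : sz z ≤ 2 := by
          have e1 : |z.1| ≤ |z.1 - a * z.2| + |a| * |z.2| := by
            have := abs_add_le (z.1 - a * z.2) (a * z.2)
            rw [sub_add_cancel, abs_mul] at this
            exact this
          have e2 : sz z = 1 + |z.1| + |z.2| := rfl
          have e3 : (|a| + 1) * |z.2| ≤ (|a| + 1) * (κ * sz z) :=
            mul_le_mul_of_nonneg_left hy.le (by positivity)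
          have e4 : (|a| + 1) * (κ * sz z) = sz z / 4 := by
            rw [hκ]
            field_simp
          have e5 : δ₀ * sz z ≤ 1 / 4 * sz z := mul_le_mul_of_nonneg_right hδ₀2 hspos.le
          nlinarith
        have h5 : ∫ t in I, ((1 + |z.1 - t * z.2|) ^ k)⁻¹ ≤ ∫ _t in I, (1 : ℝ) := by
          refine integral_mono_of_nonneg (Eventually.of_forall fun t => by positivity)
            (integrable_const _) (Eventually.of_forall fun t => ?_)
          show ((1 + |z.1 - t * z.2|) ^ k)⁻¹ ≤ 1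
          refine inv_le_one_of_one_le₀ (one_le_pow₀ ?_)
          have := abs_nonneg (z.1 - t * z.2)
          linarith
        have h6 : ∫ _t in I, (1 : ℝ) = 2 * δ' := by
          rw [setIntegral_const, smul_eq_mul, mul_one, Measure.real, hIv,
            ENNReal.toReal_ofReal (by positivity)]
        have h7 : 2 * δ' ≤ 4 * δ' / sz z := by
          rw [le_div_iff₀ hspos]
          nlinarith
        have h8 : 4 * δ' / sz z ≤ (J / κ + 4 * δ') / sz z := by
          apply div_le_div_of_nonneg_right _ hspos.le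
          have : 0 ≤ J / κ := by positivity
          linarith
        linarith
    have hprod : (volume : Measure (ℝ × (ℝ × ℝ))).restrict (I ×ˢ A) =
        (volume.restrict I).prod (volume.restrict A) := by
      rw [Measure.prod_restrict]
      rfl
    unfold IntegrableOn
    rw [hprod, integrable_prod_iff' hΦc.aestronglyMeasurable]
    have hslice : ∀ z : ℝ × ℝ, (fun t : ℝ => ‖Φ (t, z)‖) =
        fun t : ℝ => |f z| * ((1 + |z.1 - t * z.2|) ^ k)⁻¹ := by
      intro z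
      funext t
      rw [hΦ, Real.norm_eq_abs]
      show |f z / (1 + |z.1 - t * z.2|) ^ k| = _
      rw [abs_div, abs_of_pos (hden t z.1 z.2), div_eq_mul_inv]
    refine ⟨Eventually.of_forall fun z => ?_, ?_⟩
    · refine Integrable.mono' (integrable_const |f z|)
        (hΦc.comp (by fun_prop : Continuous fun t : ℝ => (t, z))).aestronglyMeasurable
        (Eventually.of_forall fun t => ?_)
      have h1 := congrFun (hslice z) t
      show ‖Φ (t, z)‖ ≤ |f z|
      rw [h1]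
      refine mul_le_of_le_one_right (abs_nonneg _) (inv_le_one_of_one_le₀ (one_le_pow₀ ?_))
      have := abs_nonneg (z.1 - t * z.2)
      linarith
    · have hmeas : StronglyMeasurable fun z : ℝ × ℝ => ∫ t in I, ‖Φ (t, z)‖ := by
        have h1 : StronglyMeasurable (Function.uncurry fun (t : ℝ) (z : ℝ × ℝ) => ‖Φ (t, z)‖) :=
          (hΦc.norm.stronglyMeasurable)
        exact h1.integral_prod_left
      refine Integrable.mono' ((hintA.norm).const_mul (J / κ + 4 * δ'))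
        hmeas.aestronglyMeasurable ?_
      rw [ae_restrict_iff' hAm]
      refine Eventually.of_forall fun z hz => ?_
      have hs1 := sz_one z
      rw [hslice z, integral_const_mul, Real.norm_eq_abs, abs_mul, abs_abs,
        abs_of_nonneg (integral_nonneg fun t => by positivity), Real.norm_eq_abs, abs_div,
        abs_of_pos (by linarith : 0 < sz z)]
      have h2 := mul_le_mul_of_nonneg_left (hkey z hz) (abs_nonneg (f z))
      calc |f z| * ∫ t in I, ((1 + |z.1 - t * z.2|) ^ k)⁻¹ ≤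
          |f z| * ((J / κ + 4 * δ') / sz z) := h2
        _ = (J / κ + 4 * δ') * (|f z| / sz z) := by ring
  · -- outside
    have hprod : (volume : Measure (ℝ × (ℝ × ℝ))).restrict (I ×ˢ (univ : Set (ℝ × ℝ))) =
        (volume.restrict I).prod volume := by
      have h := Measure.prod_restrict (μ := (volume : Measure ℝ))
        (ν := (volume : Measure (ℝ × ℝ))) I univ
      rw [Measure.restrict_univ] at h
      exact h.symm
    have hg : IntegrableOn (fun t : ℝ × (ℝ × ℝ) =>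
        (C * (2 / δ₀) ^ k) * ((1 + ‖t.2‖) ^ 3)⁻¹) (I ×ˢ Aᶜ) := by
      have h1 : Integrable (fun t : ℝ × (ℝ × ℝ) =>
          (C * (2 / δ₀) ^ k) * ((1 + ‖t.2‖) ^ 3)⁻¹) ((volume.restrict I).prod volume) :=
        Integrable.mul_prod (integrable_const _) one_add_norm_int
      have h2 : IntegrableOn (fun t : ℝ × (ℝ × ℝ) =>
          (C * (2 / δ₀) ^ k) * ((1 + ‖t.2‖) ^ 3)⁻¹) (I ×ˢ (univ : Set (ℝ × ℝ))) := by
        unfold IntegrableOn
        rw [hprod]
        exact h1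
      exact h2.mono_set (Set.prod_mono le_rfl (Set.subset_univ _))
    refine Integrable.mono' hg hΦc.aestronglyMeasurable ?_
    rw [ae_restrict_iff' (hIm.prod hAm.compl)]
    refine Eventually.of_forall fun t ht => ?_
    have htI := hdist t.1 ht.1
    have htA : ¬ (|t.2.1 - a * t.2.2| ≤ δ₀ * sz t.2) := by
      intro h
      apply ht.2
      rw [hA]
      exact h
    push Not at htA
    have hs1 := sz_one t.2
    have hspos : 0 < sz t.2 := by linarith
    have h1 : |t.2.1 - a * t.2.2| ≤ |t.2.1 - t.1 * t.2.2| + |t.1 - a| * |t.2.2| := by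
      have := abs_add_le (t.2.1 - t.1 * t.2.2) ((t.1 - a) * t.2.2)
      rw [abs_mul] at this
      refine le_trans (le_of_eq ?_) this
      congr 1
      ring
    have h2 : |t.1 - a| * |t.2.2| ≤ δ' * sz t.2 := by
      refine mul_le_mul htI ?_ (abs_nonneg _) hδ'pos.le
      unfold sz
      have := abs_nonneg t.2.1
      linarith
    have h3 : δ₀ / 2 * sz t.2 ≤ 1 + |t.2.1 - t.1 * t.2.2| := by
      rw [hδ'] at h2
      nlinarith
    rw [hΦ, Real.norm_eq_abs]
    show |f t.2 / (1 + |t.2.1 - t.1 * t.2.2|) ^ k| ≤ (C * (2 / δ₀) ^ k) * ((1 + ‖t.2‖) ^ 3)⁻¹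
    rw [abs_div, abs_of_pos (hden t.1 t.2.1 t.2.2)]
    have h4 : |f t.2| ≤ C * sz t.2 ^ m := hgr t.2.1 t.2.2
    have h5 : (δ₀ / 2 * sz t.2) ^ k ≤ (1 + |t.2.1 - t.1 * t.2.2|) ^ k :=
      pow_le_pow_left₀ (by positivity) h3 k
    have h6 : sz t.2 ^ m * sz t.2 ^ 3 ≤ sz t.2 ^ k := by
      rw [← pow_add]
      exact pow_le_pow_right₀ hs1 hk
    have h7 : (1 + ‖t.2‖) ^ 3 ≤ sz t.2 ^ 3 := pow_le_pow_left₀ (by positivity) (sz_norm t.2) 3
    calc |f t.2| / (1 + |t.2.1 - t.1 * t.2.2|) ^ k ≤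
        (C * sz t.2 ^ m) / (δ₀ / 2 * sz t.2) ^ k := by
          refine div_le_div₀ (by positivity) h4 (by positivity) h5
      _ = (C * (2 / δ₀) ^ k) * (sz t.2 ^ m / sz t.2 ^ k) := by
          rw [mul_pow, div_pow, div_pow]
          field_simp
      _ ≤ (C * (2 / δ₀) ^ k) * (sz t.2 ^ 3)⁻¹ := by
          refine mul_le_mul_of_nonneg_left ?_ (by positivity)
          rw [div_le_iff₀ (by positivity), ← div_eq_inv_mul, le_div_iff₀ (by positivity)]
          exact h6
      _ ≤ (C * (2 / δ₀) ^ k) * ((1 + ‖t.2‖) ^ 3)⁻¹ := by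
          refine mul_le_mul_of_nonneg_left ?_ (by positivity)
          exact inv_anti₀ (by positivity) h7

end Pool.Agent.Run7.h896.RD
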